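import Pool.Agent.R194.Raj.Oper
import Pool.Agent.R194.Raj.Spec

/-!
# MP_ab3f56_an (Q1): a Rajchman probability measure whose spectrum on `H^1_0(𝕋)` is the closed disc

There is a Rajchman probability measure `μ` on `𝕋 = ℝ/2πℤ` for which the spectrum of the
convolution operator `f ↦ μ * f` on `H^1_0(𝕋)` is the whole closed unit disc.
-/

namespace Pool.Agent.Results.MP_ab3f56_an.DiscSpectrum

open MeasureTheory AddCircle Filter Topology

/-- the period `2π` -/
noncomputable def per : ℝ := 2 * Real.pi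

/-- `0 < 2π`, needed for the Haar measure of `ℝ/2πℤ` -/
instance perPos : Fact (0 < per) := ⟨Real.two_pi_pos⟩

/-- normalised Lebesgue measure on `𝕋 = ℝ/2πℤ` -/
noncomputable def leb : Measure (AddCircle per) := haarAddCircle

/-- `L¹(𝕋)` -/
noncomputable def L1 : Type := Lp ℂ 1 leb

/-- the `L¹` norm -/
noncomputable instance instL1 : NormedAddCommGroup L1 :=
  (Lp.instNormedAddCommGroup : NormedAddCommGroup (Lp ℂ 1 leb))

/-- `L¹(𝕋)` is a complex normed space -/
noncomputable instance instL1C : NormedSpace ℂ L1 := (Lp.instNormedSpace : NormedSpace ℂ (Lp ℂ 1 leb))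

/-- a function representing the class `f ∈ L¹(𝕋)` -/
noncomputable def L1.fn (f : L1) : AddCircle per → ℂ := ⇑(Subtype.val (p := fun g => g ∈ Lp ℂ 1 leb) f)

/-- `f` has no Fourier coefficient of index `≤ 0` -/
def NoCoeff (f : L1) : Prop := ∀ n : ℤ, n ≤ 0 → fourierCoeff f.fn n = 0

/-- the class of `f`, seen in the development's `L¹` -/
noncomputable def toR (f : L1) : Pool.Agent.R194.Raj.L1 per := f

/-- inverse of `toR` -/
noncomputable def ofR (f : Pool.Agent.R194.Raj.L1 per) : L1 := f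

lemma noCoeff_iff (f : L1) : NoCoeff f ↔ ∀ n : ℤ, n ≤ 0 → Pool.Agent.R194.Raj.cf (T := per) n (toR f) = 0 :=
  ⟨fun h n hn => (Pool.Agent.R194.Raj.cf_apply n (toR f)).trans (h n hn),
    fun h n hn => (Pool.Agent.R194.Raj.cf_apply n (toR f)).symm.trans (h n hn)⟩

lemma noCoeff_add {f g : L1} (hf : NoCoeff f) (hg : NoCoeff g) : NoCoeff (f + g) := by
  rw [noCoeff_iff] at *
  intro n hn
  have : Pool.Agent.R194.Raj.cf (T := per) n (toR (f + g)) =
      Pool.Agent.R194.Raj.cf (T := per) n (toR f) + Pool.Agent.R194.Raj.cf (T := per) n (toR g) :=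
    map_add (Pool.Agent.R194.Raj.cf (T := per) n) (toR f) (toR g)
  rw [this, hf n hn, hg n hn, add_zero]

lemma noCoeff_zero : NoCoeff 0 := by
  rw [noCoeff_iff]
  intro n _
  exact map_zero (Pool.Agent.R194.Raj.cf (T := per) n)

lemma noCoeff_smul (c : ℂ) {f : L1} (hf : NoCoeff f) : NoCoeff (c • f) := by
  rw [noCoeff_iff] at *
  intro n hn
  have : Pool.Agent.R194.Raj.cf (T := per) n (toR (c • f)) = c • Pool.Agent.R194.Raj.cf (T := per) n (toR f) :=
    map_smul (Pool.Agent.R194.Raj.cf (T := per) n) c (toR f)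
  rw [this, hf n hn, smul_zero]

/-- `H^1_0(𝕋)` as a subspace of `L¹(𝕋)`: all `f ∈ L¹(𝕋)` with `f̂(n) = 0` for every `n ≤ 0` -/
noncomputable def H10sub : Submodule ℂ L1 where
  carrier := {f | NoCoeff f}
  add_mem' := noCoeff_add
  zero_mem' := noCoeff_zero
  smul_mem' := noCoeff_smul

/-- the space `H^1_0(𝕋)` -/
def H10 : Type := H10sub

/-- the `L¹` norm on `H^1_0(𝕋)` -/
noncomputable instance instH10 : NormedAddCommGroup H10 := Submodule.normedAddCommGroup H10sub

/-- `H^1_0(𝕋)` is a complex normed space -/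
noncomputable instance instH10C : NormedSpace ℂ H10 := Submodule.normedSpace H10sub

/-- a function representing `f ∈ H^1_0(𝕋)` -/
noncomputable def H10.fn (f : H10) : AddCircle per → ℂ := L1.fn (Subtype.val (p := fun g => g ∈ H10sub) f)

/-- `μ` is Rajchman: `μ̂(n) = ∫ e^{-int} dμ(t) → 0` as `|n| → ∞` -/
def IsRajchman (μ : Measure (AddCircle per)) : Prop :=
  Tendsto (fun n : ℤ => ∫ t, fourier (-n) t ∂μ) cofinite (𝓝 0)

/-- `T` is the convolution by `μ` on `H^1_0(𝕋)`: `(T f)(x) = ∫ f(x - y) dμ(y)` for a.e. `x` -/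
def IsConv (μ : Measure (AddCircle per)) (T : H10 →L[ℂ] H10) : Prop :=
  ∀ f : H10, ∀ᵐ x ∂leb, (T f).fn x = ∫ y, f.fn (x - y) ∂μ

lemma H10_closed : IsClosed (H10sub : Set L1) := by
  have : (H10sub : Set L1) = ⋂ (n : ℤ) (_ : n ≤ 0), {f : L1 | Pool.Agent.R194.Raj.cf (T := per) n (toR f) = 0} := by
    ext f
    simp only [Set.mem_iInter]
    exact noCoeff_iff f
  rw [this]
  refine isClosed_iInter fun n => isClosed_iInter fun _ => ?_
  have hc : Continuous (fun f : L1 => Pool.Agent.R194.Raj.cf (T := per) n (toR f)) :=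
    (Pool.Agent.R194.Raj.cf (T := per) n).continuous
  exact isClosed_eq hc continuous_const

instance : CompleteSpace L1 := inferInstanceAs (CompleteSpace (Lp ℂ 1 leb))

instance : CompleteSpace H10 := by
  have : CompleteSpace H10sub := H10_closed.completeSpace_coe
  exact this

open Pool.Agent.R194.Raj in
/-- **MP_ab3f56_an, Q1 (answer: yes).** -/
theorem result : ∃ μ : Measure (AddCircle per), IsProbabilityMeasure μ ∧ IsRajchman μ ∧
    ∃ T : H10 →L[ℂ] H10, IsConv μ T ∧ spectrum ℂ T = Metric.closedBall 0 1 := by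
  classical
  obtain ⟨a, ha, hgen⟩ := exists_generic per
  obtain ⟨μ, hμ⟩ := exists_measure per ha
  set A := TT (μ : Measure (AddCircle per)) with hA
  have hmem : ∀ f : H10sub, NoCoeff (ofR (A (toR f.1))) := by
    intro f
    rw [noCoeff_iff]
    intro n hn
    have h1 : Pool.Agent.R194.Raj.cf (T := per) n (A (toR f.1)) = 0 := by
      rw [hA, cf_TT, (noCoeff_iff f.1).mp f.2 n hn, mul_zero]
    exact h1
  let T0 : H10sub →ₗ[ℂ] H10sub :=
    { toFun := fun f => ⟨ofR (A (toR f.1)), hmem f⟩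
      map_add' := fun f g => Subtype.ext (map_add A (toR f.1) (toR g.1))
      map_smul' := fun c f => Subtype.ext (map_smul A c (toR f.1)) }
  have hT0 : ∀ f : H10sub, ‖T0 f‖ ≤ 1 * ‖f‖ := by
    intro f
    have h2 : ‖A (toR f.1)‖ ≤ ‖A‖ * ‖toR f.1‖ := A.le_opNorm _
    have h3 := TT_norm_le (μ : Measure (AddCircle per))
    calc ‖T0 f‖ = ‖A (toR f.1)‖ := rfl
      _ ≤ ‖A‖ * ‖toR f.1‖ := h2
      _ ≤ 1 * ‖toR f.1‖ := by gcongr
      _ = 1 * ‖f‖ := rfl
  let T : H10 →L[ℂ] H10 := (T0.mkContinuous 1 hT0 : H10sub →L[ℂ] H10sub)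
  refine ⟨μ, inferInstance, ?_, T, ?_, ?_⟩
  · have h := a.zero_at_infty'
    rw [Filter.cocompact_eq_cofinite] at h
    refine h.congr fun n => ?_
    exact (hμ n).symm
  · intro f
    exact TT_ae (μ : Measure (AddCircle per)) (toR (show H10sub from f).1)
  · refine spectrum_eq_disc T ?_ ?_
    · exact T0.mkContinuous_norm_le zero_le_one hT0
    · intro lam hlam η hη
      obtain ⟨S, hS, F, hF0, hF⟩ := hgen lam hlam η hη
      set g : Pool.Agent.R194.Raj.L1 per :=
        ContinuousMap.toLp (E := ℂ) 1 haarAddCircle ℂ (W S F : C(AddCircle per, ℂ)) with hg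
      have hgm : NoCoeff (ofR g) := by
        rw [noCoeff_iff]
        intro n hn
        show Pool.Agent.R194.Raj.cf (T := per) n g = 0
        rw [hg]
        unfold W
        simp only [map_sum, map_smul, cf_fourier]
        apply Finset.sum_eq_zero
        intro k hk
        have := hS k hk
        rw [if_neg (by omega), smul_zero]
      let g' : H10 := (⟨ofR g, hgm⟩ : H10sub)
      refine ⟨g', hF0, ?_⟩
      have e3 : A g - lam • g =
          ContinuousMap.toLp (E := ℂ) 1 haarAddCircle ℂ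
              (W S (fun n => (a n - lam) * F n) : C(AddCircle per, ℂ)) := by
        rw [hg, hA, TT_W, ← map_smul, ← map_sub, ← W_smul, ← W_sub]
        congr 2
        ext n
        rw [hμ]
        ring
      calc ‖T g' - lam • g'‖ = ‖A g - lam • g‖ := rfl
        _ = nrm (W S (fun n => (a n - lam) * F n) : C(AddCircle per, ℂ)) := by rw [e3]; rfl
        _ ≤ η * nrm (W S F : C(AddCircle per, ℂ)) := hF
        _ = η * ‖g'‖ := rfl

end Pool.Agent.Results.MP_ab3f56_an.DiscSpectrum
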